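import Pool.Agent.TH479.BP.Cube

/-!
# Maximum percolation time of `r`-neighbour bootstrap percolation on the hypercube, `r ≥ 3`

For every fixed threshold `r ≥ 3` the maximum percolation time `M(Q_{n,2}, r)` of the
`n`-dimensional hypercube has order of magnitude exactly `2 ^ n / n`.

The upper bound counts, for a vertex infected exactly at time `i`, its neighbours that were not
infected at time `i - 2`. The lower bound is an explicit set for `r = 3`: the infection has to run
through a path-like set of about `2 ^ n / n` vertices such that every vertex off the set has at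
most two neighbours in it. The set is built from Gray codes: in the fibre over `y` the infection
runs through all `(h(y) + κ, κ)`, where `κ` runs through a Gray code of `F_2 ^ s` and `h` is a
syndrome map whose columns have weight at least 4; fibres are joined by short ladders in other
layers, and a kernel-checked table of 256 layers makes everything percolate at the end.
-/

namespace Pool.Agent.Results.MP_df66b4_co.HypercubeTheta

open Pool.Agent.TH479.BP

/-- For every `r ≥ 3` there are constants `c, C > 0` with
`c * 2 ^ n / n ≤ M(Q_{n,2}, r) ≤ C * 2 ^ n / n` for all `n ≥ r`. -/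
theorem result : ∀ r : ℕ, 3 ≤ r → ∃ c C : ℝ, 0 < c ∧ 0 < C ∧ ∀ n : ℕ, r ≤ n →
    IsGreatest {t : ℕ | ∃ A : Set (Fin n → Fin 2), closure (cube n 2) r A = Set.univ ∧
      t = time (cube n 2) r A} (maxTime (cube n 2) r) ∧
    c * (2 ^ n / n) ≤ (maxTime (cube n 2) r : ℝ) ∧
    (maxTime (cube n 2) r : ℝ) ≤ C * (2 ^ n / n) := by
  intro r hr
  obtain ⟨c, C, hc, hC, h⟩ := theta r hr
  refine ⟨c, C, hc, hC, fun n hn => ⟨⟨?_, ?_⟩, h n hn⟩⟩
  · exact maxTime_mem _ _
  · exact fun t ht => le_csSup (bdd_times _ _) ht

end Pool.Agent.Results.MP_df66b4_co.HypercubeTheta
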